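import Pool.Agent.Run7.h510.AE.AZE

set_option autoImplicit false

/-! The argument of zeta is obtained by continuous variation along the horizontal ray, and this determines it. -/

namespace Run7.h311.OA

open Filter Topology MeasureTheory
open Pool.Agent.Q97.UM
open Pool.Agent.Run7.h74.AE
open Pool.Agent.Run7.h510.AE

/-- the continuous variation -/
theorem arg_path {t : ℝ} (ht : t ≠ 0) (hz : ∀ σ : ℝ, 1 / 2 ≤ σ → riemannZeta (σ + t * Complex.I) ≠ 0) :
    ∃ φ : ℝ → ℝ, ContinuousOn φ (Set.Ici (1 / 2)) ∧ (∀ σ : ℝ, 1 / 2 ≤ σ → riemannZeta (σ + t * Complex.I) =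
      (‖riemannZeta (σ + t * Complex.I)‖ : ℂ) * Complex.exp (Complex.I * (φ σ : ℂ))) ∧ Tendsto φ atTop (𝓝 0) ∧
      φ (1 / 2) = az t := by
  -- continuity
  have hlin : Continuous (fun σ : ℝ => (σ : ℂ) + (t : ℂ) * Complex.I) := by fun_prop
  have hzr : ∀ σ : ℝ, HasDerivAt (zr t) (deriv riemannZeta ((σ : ℂ) + (t : ℂ) * Complex.I)) σ := by
    intro σ
    have h1 : HasDerivAt (fun x : ℝ => (x : ℂ) + (t : ℂ) * Complex.I) 1 σ := by
      simpa using (Complex.ofRealCLM.hasDerivAt (x := σ)).add_const ((t : ℂ) * Complex.I)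
    have h2 := (differentiableAt_riemannZeta (ne_one ht σ)).hasDerivAt
    have h3 := HasDerivAt.comp σ h2 h1
    exact h3.congr_deriv (by ring)
  have hdc : Continuous (fun σ : ℝ => deriv riemannZeta ((σ : ℂ) + (t : ℂ) * Complex.I)) := by
    have h1 : ContinuousOn (deriv riemannZeta) {1}ᶜ := by
      have h2 : DifferentiableOn ℂ riemannZeta {1}ᶜ := fun s hs =>
        (differentiableAt_riemannZeta hs).differentiableWithinAt
      exact (h2.deriv isOpen_compl_singleton).continuousOn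
    exact h1.comp_continuous hlin fun σ => ne_one ht σ
  have hzc : Continuous (zr t) := continuous_iff_continuousAt.2 fun σ => (hzr σ).continuousAt
  have hzne : ∀ σ ∈ Set.Ici (1 / 2 : ℝ), zr t σ ≠ 0 := fun σ hσ => hz σ hσ
  have hlc : ContinuousOn (lr t) (Set.Ici (1 / 2 : ℝ)) :=
    hdc.continuousOn.div hzc.continuousOn hzne
  -- integrability
  obtain ⟨C, hC, hbd⟩ := lr_bound t
  have hlog2 : 0 < Real.log 2 := Real.log_pos (by norm_num)
  have hint : IntegrableOn (lr t) (Set.Ioi (1 / 2 : ℝ)) := by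
    have h1 : IntegrableOn (lr t) (Set.Icc (1 / 2 : ℝ) 2) :=
      (hlc.mono Set.Icc_subset_Ici_self).integrableOn_compact isCompact_Icc
    have h2 : IntegrableOn (lr t) (Set.Ioi (2 : ℝ)) := by
      have h3 : IntegrableOn (fun σ : ℝ => C * Real.exp (-Real.log 2 * σ)) (Set.Ioi (2 : ℝ)) :=
        (integrableOn_exp_mul_Ioi (by linarith : -Real.log 2 < 0) 2).const_mul C
      refine h3.mono' ?_ ?_
      · exact (hlc.mono (fun x hx => by
          simp only [Set.mem_Ioi] at hx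
          simp only [Set.mem_Ici]
          linarith)).aestronglyMeasurable measurableSet_Ioi
      · refine (ae_restrict_iff' measurableSet_Ioi).2 (ae_of_all _ fun σ hσ => ?_)
        exact hbd σ (le_of_lt hσ)
    refine (h1.union h2).mono_set fun x hx => ?_
    simp only [Set.mem_Ioi] at hx
    rcases le_or_gt x 2 with h | h
    · exact Or.inl ⟨hx.le, h⟩
    · exact Or.inr h
  -- the function `H`
  set F : ℝ → ℂ := fun σ => ∫ x in (1 / 2 : ℝ)..σ, lr t x with hF
  have hFd : ∀ σ : ℝ, 1 / 2 < σ → HasDerivAt F (lr t σ) σ := by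
    intro σ hσ
    have hmem : Set.Ici (1 / 2 : ℝ) ∈ 𝓝 σ := Ici_mem_nhds hσ
    refine intervalIntegral.integral_hasDerivAt_right ?_ ?_ (hlc.continuousAt hmem)
    · refine (hlc.mono fun x hx => ?_).intervalIntegrable
      rw [Set.uIcc_of_le hσ.le] at hx
      exact hx.1
    · exact hlc.stronglyMeasurableAtFilter_nhdsWithin measurableSet_Ici σ |>.filter_mono (by
        rw [nhdsWithin_eq_nhds.2 hmem])
  have hFlim : Tendsto F atTop (𝓝 (∫ x in Set.Ioi (1 / 2 : ℝ), lr t x)) :=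
    intervalIntegral_tendsto_integral_Ioi _ hint tendsto_id
  have hFc : ContinuousWithinAt F (Set.Ici (1 / 2)) (1 / 2) := by
    have h1 : ContinuousOn F (Set.uIcc (1 / 2 : ℝ) 2) := by
      apply intervalIntegral.continuousOn_primitive_interval
      rw [Set.uIcc_of_le (by norm_num : (1 / 2 : ℝ) ≤ 2)]
      exact (hlc.mono Set.Icc_subset_Ici_self).integrableOn_compact isCompact_Icc
    have h2 := h1 (1 / 2) Set.left_mem_uIcc
    rw [Set.uIcc_of_le (by norm_num : (1 / 2 : ℝ) ≤ 2)] at h2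
    refine h2.mono_of_mem_nhdsWithin ?_
    exact Icc_mem_nhdsGE (by norm_num)
  set H : ℝ → ℂ := fun σ => zr t σ * Complex.exp (-F σ) with hH
  have hHd : ∀ σ : ℝ, 1 / 2 < σ → HasDerivAt H 0 σ := by
    intro σ hσ
    have h1 := (hzr σ).mul ((hFd σ hσ).neg.cexp)
    refine h1.congr_deriv ?_
    have h2 : zr t σ ≠ 0 := hzne σ hσ.le
    have h3 : zr t σ * lr t σ = deriv riemannZeta ((σ : ℂ) + (t : ℂ) * Complex.I) := by
      unfold lr
      exact mul_div_cancel₀ _ h2
    rw [← h3]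
    ring
  have hHc : ContinuousOn H (Set.Ici (1 / 2 : ℝ)) := by
    intro σ hσ
    rcases eq_or_lt_of_le (Set.mem_Ici.1 hσ) with h | h
    · rw [← h]
      exact hzc.continuousWithinAt.mul hFc.neg.cexp
    · exact (hHd σ h).continuousAt.continuousWithinAt
  have hconst : ∀ a σ : ℝ, 1 / 2 < a → a ≤ σ → H σ = H a := by
    intro a σ ha hσ
    refine constant_of_has_deriv_right_zero (hHc.mono fun x hx => ?_) ?_ σ
      (Set.right_mem_Icc.2 hσ)
    · exact (ha.le.trans hx.1 : (1 / 2 : ℝ) ≤ x)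
    · intro x hx
      exact (hHd x (lt_of_lt_of_le ha hx.1)).hasDerivWithinAt
  have hconst2 : ∀ σ : ℝ, 1 / 2 < σ → H σ = H (1 / 2) := by
    intro σ hσ
    have h1 : Tendsto H (𝓝[>] (1 / 2 : ℝ)) (𝓝 (H (1 / 2))) :=
      (hHc (1 / 2) Set.self_mem_Ici).mono_left (nhdsWithin_mono _ Set.Ioi_subset_Ici_self)
    have h2 : Tendsto H (𝓝[>] (1 / 2 : ℝ)) (𝓝 (H σ)) := by
      refine tendsto_const_nhds.congr' ?_
      filter_upwards [Ioo_mem_nhdsGT hσ] with a ha
      exact hconst a σ ha.1 ha.2.le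
    exact tendsto_nhds_unique h2 h1
  set J : ℂ := ∫ x in Set.Ioi (1 / 2 : ℝ), lr t x with hJ
  have hlim : Tendsto H atTop (𝓝 (1 * Complex.exp (-J))) :=
    (zr_tendsto t).mul ((Complex.continuous_exp.tendsto _).comp hFlim.neg)
  have hlim2 : Tendsto H atTop (𝓝 (H (1 / 2))) := by
    refine tendsto_const_nhds.congr' ?_
    filter_upwards [eventually_gt_atTop (1 / 2 : ℝ)] with σ hσ
    exact (hconst2 σ hσ).symm
  have hfin : H (1 / 2) = Complex.exp (-J) := by
    have := tendsto_nhds_unique hlim2 hlim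
    rwa [one_mul] at this
  have haz : az t = (-J).im := by
    have h1 : (∫ σ in Set.Ioi (1 / 2 : ℝ), (lr t σ).im) = J.im :=
      Complex.imCLM.integral_comp_comm hint
    rw [Complex.neg_im, ← h1]
    rfl
  have hFc' : ContinuousOn F (Set.Ici (1 / 2 : ℝ)) := by
    intro σ hσ
    rcases eq_or_lt_of_le (Set.mem_Ici.1 hσ) with h | h
    · rw [← h]
      exact hFc
    · exact (hFd σ h).continuousAt.continuousWithinAt
  have hF0 : F (1 / 2) = 0 := by
    simp only [hF]
    exact intervalIntegral.integral_same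
  refine ⟨fun σ => (F σ - J).im, ?_, ?_, ?_, ?_⟩
  · exact Complex.continuous_im.comp_continuousOn (hFc'.sub continuousOn_const)
  · intro σ hσ
    have h1 : H σ = Complex.exp (-J) := by
      rcases eq_or_lt_of_le hσ with h | h
      · rw [← h, hfin]
      · rw [hconst2 σ h, hfin]
    have h2 : zr t σ = Complex.exp (F σ - J) := by
      have h3 : zr t σ * Complex.exp (-F σ) = Complex.exp (-J) := h1
      calc zr t σ = (zr t σ * Complex.exp (-F σ)) * Complex.exp (F σ) := by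
            rw [mul_assoc, ← Complex.exp_add]
            simp
        _ = Complex.exp (F σ - J) := by
            rw [h3, ← Complex.exp_add]
            congr 1
            ring
    have h4 : riemannZeta (σ + t * Complex.I) = Complex.exp (F σ - J) := h2
    rw [h4, Complex.norm_exp, Complex.ofReal_exp, ← Complex.exp_add]
    congr 1
    apply Complex.ext <;> simp
  · have h1 : Tendsto (fun σ => (F σ - J).im) atTop (𝓝 (J - J).im) :=
      (Complex.continuous_im.tendsto _).comp (hFlim.sub_const J)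
    rw [sub_self, Complex.zero_im] at h1
    exact h1
  · simp only
    rw [hF0, zero_sub, haz]

/-- two continuous arguments with the same limit agree -/
theorem arg_unique {t : ℝ} (hz : ∀ σ : ℝ, 1 / 2 ≤ σ → riemannZeta (σ + t * Complex.I) ≠ 0)
    {φ ψ : ℝ → ℝ} (hφ : ContinuousOn φ (Set.Ici (1 / 2))) (hψ : ContinuousOn ψ (Set.Ici (1 / 2)))
    (h1 : ∀ σ : ℝ, 1 / 2 ≤ σ → riemannZeta (σ + t * Complex.I) =
      (‖riemannZeta (σ + t * Complex.I)‖ : ℂ) * Complex.exp (Complex.I * (φ σ : ℂ)))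
    (h2 : ∀ σ : ℝ, 1 / 2 ≤ σ → riemannZeta (σ + t * Complex.I) =
      (‖riemannZeta (σ + t * Complex.I)‖ : ℂ) * Complex.exp (Complex.I * (ψ σ : ℂ)))
    (h3 : Tendsto φ atTop (𝓝 0)) (h4 : Tendsto ψ atTop (𝓝 0)) : φ (1 / 2) = ψ (1 / 2) := by
  have hint : ∀ σ : ℝ, 1 / 2 ≤ σ → ∃ n : ℤ, φ σ - ψ σ = n * (2 * Real.pi) := by
    intro σ hσ
    have e1 := h1 σ hσ
    have e2 := h2 σ hσ
    have hn : (‖riemannZeta (σ + t * Complex.I)‖ : ℂ) ≠ 0 := by
      have := norm_ne_zero_iff.2 (hz σ hσ)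
      exact_mod_cast this
    have e3 : Complex.exp (Complex.I * (φ σ : ℂ)) = Complex.exp (Complex.I * (ψ σ : ℂ)) := by
      rw [e1] at e2
      have e4 := e2
      rw [← e1] at e4
      have e5 := e1.symm.trans (h2 σ hσ)
      exact mul_left_cancel₀ hn e5
    obtain ⟨n, hn2⟩ := Complex.exp_eq_exp_iff_exists_int.1 e3
    refine ⟨n, ?_⟩
    have e6 := congrArg Complex.im hn2
    simp at e6
    linarith
  -- the difference is locally constant
  obtain ⟨D, hD⟩ : ∃ D : ℝ → ℝ, D = fun σ => φ σ - ψ σ := ⟨_, rfl⟩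
  have hDc : ContinuousOn D (Set.Ici (1 / 2)) := by rw [hD]; exact hφ.sub hψ
  have hpi := Real.pi_pos
  have hlim : Tendsto D atTop (𝓝 0) := by
    rw [hD]
    have := h3.sub h4
    rwa [sub_zero] at this
  have hev : ∀ᶠ σ in atTop, |D σ| < Real.pi := by
    have := (hlim.abs).eventually_lt_const (u := Real.pi) (by rw [abs_zero]; exact hpi)
    exact this
  obtain ⟨σ₁, hσ₁⟩ := (hev.and (eventually_ge_atTop (1 / 2 : ℝ))).exists
  by_contra hne
  have hD0 : D (1 / 2) ≠ 0 := by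
    rw [hD]
    exact sub_ne_zero.2 hne
  obtain ⟨n₀, hn₀⟩ := hint (1 / 2) le_rfl
  obtain ⟨n₁, hn₁⟩ := hint σ₁ hσ₁.2
  have hDh : D (1 / 2) = n₀ * (2 * Real.pi) := by rw [hD]; exact hn₀
  have hD1 : D σ₁ = n₁ * (2 * Real.pi) := by rw [hD]; exact hn₁
  have hn10 : n₁ = 0 := by
    have h5 := hσ₁.1
    rw [hD1, abs_mul, abs_of_pos (by positivity : 0 < 2 * Real.pi)] at h5
    have h6 : |(n₁ : ℝ)| < 1 := by nlinarith
    have h7 : |n₁| < 1 := by exact_mod_cast h6
    exact Int.abs_lt_one_iff.1 h7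
  have hD1' : D σ₁ = 0 := by rw [hD1, hn10]; simp
  have hn0 : n₀ ≠ 0 := by
    intro h
    rw [h] at hDh
    exact hD0 (by rw [hDh]; simp)
  -- intermediate values
  have hpre : IsPreconnected (Set.Icc (1 / 2) σ₁) := isPreconnected_Icc
  have hDc' : ContinuousOn D (Set.Icc (1 / 2) σ₁) := hDc.mono Set.Icc_subset_Ici_self
  have himg := (hpre.image D hDc').ordConnected
  have hmemh : D (1 / 2) ∈ D '' Set.Icc (1 / 2) σ₁ := ⟨1 / 2, ⟨le_rfl, hσ₁.2⟩, rfl⟩
  have hmem1 : D σ₁ ∈ D '' Set.Icc (1 / 2) σ₁ := ⟨σ₁, ⟨hσ₁.2, le_rfl⟩, rfl⟩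
  have hbad : ∀ v : ℝ, v ∈ D '' Set.Icc (1 / 2) σ₁ → ∃ n : ℤ, v = n * (2 * Real.pi) := by
    rintro v ⟨σ, hσ, rfl⟩
    obtain ⟨n, hn⟩ := hint σ hσ.1
    exact ⟨n, by rw [hD]; exact hn⟩
  have hcon : ∀ v : ℝ, |v| = Real.pi → ¬ ∃ n : ℤ, v = n * (2 * Real.pi) := by
    rintro v hv ⟨n, rfl⟩
    rw [abs_mul, abs_of_pos (by positivity : 0 < 2 * Real.pi)] at hv
    have h6 : |(n : ℝ)| * 2 = 1 := by
      have h7 : (|(n : ℝ)| * 2) * Real.pi = 1 * Real.pi := by linarith
      exact mul_right_cancel₀ hpi.ne' h7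
    have h7 : |n| * 2 = 1 := by exact_mod_cast h6
    omega
  rcases lt_or_gt_of_ne hn0 with hneg | hpos
  · have h5 : (n₀ : ℝ) ≤ -1 := by exact_mod_cast (by omega : n₀ ≤ -1)
    have h6 : -Real.pi ∈ Set.Icc (D (1 / 2)) (D σ₁) := by
      rw [hDh, hD1']
      constructor
      · nlinarith
      · linarith
    have h7 := himg.out hmemh hmem1 h6
    exact hcon _ (by rw [abs_neg, abs_of_pos hpi]) (hbad _ h7)
  · have h5 : (1 : ℝ) ≤ n₀ := by exact_mod_cast (by omega : 1 ≤ n₀)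
    have h6 : Real.pi ∈ Set.Icc (D σ₁) (D (1 / 2)) := by
      rw [hDh, hD1']
      constructor
      · linarith
      · nlinarith
    have h7 := himg.out hmem1 hmemh h6
    exact hcon _ (abs_of_pos hpi) (hbad _ h7)

end Run7.h311.OA
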