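import Pool.Agent.Run7.h311.OA.FinC
import Pool.Agent.Run7.h311.OA.Arg

set_option autoImplicit false

/-! The heights of the zeros of zeta are countable. -/

namespace Run7.h311.OA

open Filter Topology MeasureTheory Complex

theorem heights_countable : {t : ℝ | ∃ σ : ℝ, riemannZeta (σ + t * I) = 0}.Countable := by
  have h1 : {t : ℝ | ∃ σ : ℝ, riemannZeta (σ + t * I) = 0} ⊆
      ⋃ n : ℕ, Complex.im '' (Metric.closedBall (0 : ℂ) n ∩ riemannZetaZeros) := by
    rintro t ⟨σ, hσ⟩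
    obtain ⟨n, hn⟩ := exists_nat_ge ‖(σ : ℂ) + t * I‖
    refine Set.mem_iUnion.2 ⟨n, (σ : ℂ) + t * I, ⟨?_, hσ⟩, ?_⟩
    · rw [Metric.mem_closedBall, dist_zero_right]
      exact hn
    · simp
  refine Set.Countable.mono h1 (Set.countable_iUnion fun n => Set.Finite.countable ?_)
  exact ((isCompact_closedBall (0 : ℂ) n).inter_riemannZetaZeros_finite).image _

theorem heights_shift (α : ℝ) : {t : ℝ | ∃ σ : ℝ, riemannZeta (σ + (t + α : ℝ) * I) = 0}.Countable := by
  have h2 : {t : ℝ | ∃ σ : ℝ, riemannZeta (σ + (t + α : ℝ) * I) = 0} =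
      (fun t => t + α) ⁻¹' {t : ℝ | ∃ σ : ℝ, riemannZeta (σ + t * I) = 0} := rfl
  rw [h2]
  exact heights_countable.preimage (add_left_injective α)

end Run7.h311.OA
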