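import Pool.Agent.Q97.UM.Base8
import Pool.Agent.Run7.h299.AE.ARG
import Pool.Agent.Run7.h376.AE.LOCI
import Pool.Agent.Run7.h416.AE.LITI
import Pool.Agent.Run7.h510.AE.AZE
import Pool.Agent.Run7.h510.AE.AZM
import Pool.Agent.Run7.h510.AE.KLGI
import Pool.Agent.Run7.h56.AE.THA
import Pool.Agent.Run7.h613.AE.VAVI
import Pool.Agent.Run7.h617.AE.EULI

set_option autoImplicit false

/-! The argument of zeta relative to every Dirichlet polynomial: assembly of the pieces of project AE (helper74). -/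

namespace Run7.h311.OA

open Filter Topology MeasureTheory Complex
open Pool.Agent.Q97.UM
open Pool.Agent.Run7.h74.AE

theorem kb : S_KB := Pool.Agent.Q177.UM.t_KB

theorem vavi : S_VAVI := Run7.h613.AE.VAVI.t_VAVI kb Pool.Agent.Run7.h416.AE.t_LITI

theorem klgi : S_KLGI := Pool.Agent.Run7.h510.AE.t_KLGI kb

theorem arg : S_ARG :=
  Pool.Agent.Run7.h299.AE.t_ARG kb vavi Pool.Agent.Q149.UM.t_LOC Run7.h376.AE.t_LOCI klgi Pool.Agent.Run7.h510.AE.t_AZM

theorem euli : S_EULI := Pool.Agent.Run7.h617.AE.t_EULI kb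

theorem b_THA : S_THA :=
  Pool.Agent.Run7.h56.AE.t_THA kb arg Pool.Agent.Run7.h510.AE.t_AZM b_STM euli b_PMM Pool.Agent.Q84.UM.t_MVL b_KER b_TAIL

theorem azm : Measurable az := Pool.Agent.Run7.h510.AE.t_AZM

theorem aze : S_AZE := Pool.Agent.Run7.h510.AE.t_AZE

end Run7.h311.OA
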