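import Pool.Agent.Run7.h311.OM.Prm

set_option autoImplicit false

/-! Complex exponential sums over the primes in an interval, and the logarithm of zeta to the right of `1`. -/

namespace Run7.h311.OA

open Filter Topology MeasureTheory Complex
open Pool.Agent.Q97.UM Pool.Agent.Q14.UM Run7.h311.LW Run7.h311.OM
open Pool.Agent.Q149.UM (sp sp_re sp_im norm_zp' weight)

noncomputable section

theorem Z1_diff : Differentiable ℂ Z1 := by
  intro s
  rcases eq_or_ne s 1 with rfl | hs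
  · have h1 : ∀ᶠ z in 𝓝[≠] (1 : ℂ), DifferentiableAt ℂ Z1 z := by
      filter_upwards [self_mem_nhdsWithin] with z hz
      have hz' : z ≠ 1 := hz
      have h2 : DifferentiableAt ℂ (fun s => (s - 1) * riemannZeta s) z :=
        (differentiableAt_id.sub_const 1).mul (differentiableAt_riemannZeta hz')
      refine h2.congr_of_eventuallyEq ?_
      filter_upwards [isOpen_ne.mem_nhds hz'] with w hw using Z1_of_ne hw
    exact (Complex.analyticAt_of_differentiable_on_punctured_nhds_of_continuousAt h1 Z1_cont.continuousAt).differentiableAt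
  · have h2 : DifferentiableAt ℂ (fun s => (s - 1) * riemannZeta s) s :=
      (differentiableAt_id.sub_const 1).mul (differentiableAt_riemannZeta hs)
    refine h2.congr_of_eventuallyEq ?_
    filter_upwards [isOpen_ne.mem_nhds hs] with w hw using Z1_of_ne hw

/-- the logarithm of zeta at `1 + a + iu` -/
def Phi (a u : ℝ) : ℂ := ∑' p : Nat.Primes, -Complex.log (1 - ((p : ℕ) : ℂ) ^ (-(sp a u)))

theorem z_small {a u : ℝ} (ha : 0 ≤ a) {p : ℕ} (hp : p.Prime) : ‖(p : ℂ) ^ (-(sp a u))‖ ≤ 1 / p := by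
  rw [norm_zp' a u p hp.pos]
  have h1 : Real.exp (-(a * Real.log p)) ≤ 1 := by
    rw [Real.exp_le_one_iff]
    have := mul_nonneg ha (Real.log_natCast_nonneg p)
    linarith
  calc 1 / (p : ℝ) * Real.exp (-(a * Real.log p)) ≤ 1 / (p : ℝ) * 1 :=
        mul_le_mul_of_nonneg_left h1 (by positivity)
    _ = 1 / p := mul_one _

theorem z_half {a u : ℝ} (ha : 0 ≤ a) {p : ℕ} (hp : p.Prime) : ‖(p : ℂ) ^ (-(sp a u))‖ ≤ 1 / 2 := by
  have hp2 : (2 : ℝ) ≤ p := by exact_mod_cast hp.two_le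
  exact (z_small ha hp).trans (one_div_le_one_div_of_le (by norm_num) hp2)

theorem term_bd {a₀ a u : ℝ} (h0 : 0 ≤ a₀) (ha : a₀ ≤ a) (p : Nat.Primes) :
    ‖-Complex.log (1 - ((p : ℕ) : ℂ) ^ (-(sp a u)))‖ ≤ 3 / 2 * ((p : ℕ) : ℝ) ^ (-(1 + a₀)) := by
  have h1 := Complex.norm_log_one_add_half_le_self (z := -((p : ℕ) : ℂ) ^ (-(sp a u)))
    (by rw [norm_neg]; exact z_half (h0.trans ha) p.2)
  rw [norm_neg, ← sub_eq_add_neg] at h1
  rw [norm_neg]
  refine h1.trans (mul_le_mul_of_nonneg_left ?_ (by norm_num))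
  rw [Complex.norm_natCast_cpow_of_pos p.2.pos, neg_re, sp_re]
  exact Real.rpow_le_rpow_of_exponent_le (by exact_mod_cast p.2.one_le) (by linarith)

theorem sum_bd {a₀ : ℝ} (h0 : 0 < a₀) : Summable fun p : Nat.Primes => 3 / 2 * ((p : ℕ) : ℝ) ^ (-(1 + a₀)) :=
  (Nat.Primes.summable_rpow.mpr (by linarith)).mul_left _

theorem Phi_summable {a : ℝ} (h0 : 0 < a) (u : ℝ) :
    Summable fun p : Nat.Primes => -Complex.log (1 - ((p : ℕ) : ℂ) ^ (-(sp a u))) :=
  Summable.of_norm_bounded (sum_bd h0) fun p => term_bd h0.le le_rfl p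

theorem exp_Phi {a : ℝ} (h0 : 0 < a) (u : ℝ) : cexp (Phi a u) = riemannZeta (sp a u) :=
  riemannZeta_eulerProduct_exp_log (by rw [sp_re]; linarith)

theorem Phi_cont {a₀ : ℝ} (h0 : 0 < a₀) (u : ℝ) : ContinuousOn (fun a => Phi a u) (Set.Ici a₀) := by
  unfold Phi
  refine continuousOn_tsum (fun p => ?_) (sum_bd h0) fun p a ha => term_bd h0.le ha p
  have hp0 : ((p : ℕ) : ℂ) ≠ 0 := by exact_mod_cast p.2.ne_zero
  refine ContinuousOn.neg (ContinuousOn.clog ?_ ?_)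
  · refine continuousOn_const.sub (Continuous.continuousOn ?_)
    refine Continuous.const_cpow ?_ (Or.inl hp0)
    unfold sp
    fun_prop
  · intro a ha
    have h1 := z_half (u := u) (h0.le.trans ha) p.2
    left
    rw [sub_re, one_re]
    have := (Complex.abs_re_le_norm (((p : ℕ) : ℂ) ^ (-(sp a u)))).trans h1
    have := (abs_le.1 this).2
    linarith

/-- a continuous logarithm of a differentiable function is differentiable -/
theorem deriv_of_exp {f g : ℝ → ℂ} {g' : ℂ} {a : ℝ} (hf : ContinuousAt f a) (hg : ∀ᶠ x in 𝓝 a, cexp (f x) = g x)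
    (hd : HasDerivAt g g' a) : HasDerivAt f (g' / g a) a := by
  have hga : cexp (f a) = g a := hg.self_of_nhds
  have hga0 : g a ≠ 0 := by rw [← hga]; exact Complex.exp_ne_zero _
  have h1 : HasDerivAt (fun x => f a + Complex.log (g x / g a)) (g' / g a) a := by
    have h2 : HasDerivAt (fun x => g x / g a) (g' / g a) a := hd.div_const (g a)
    have h3 : HasDerivAt (fun x => Complex.log (g x / g a)) (g' / g a / (g a / g a)) a := by
      refine h2.clog_real ?_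
      rw [div_self hga0]
      exact Complex.one_mem_slitPlane
    rw [div_self hga0, div_one] at h3
    exact h3.const_add _
  refine h1.congr_of_eventuallyEq ?_
  have h4 : ∀ᶠ x in 𝓝 a, ‖f x - f a‖ < 1 := by
    have h5 : Tendsto (fun x => ‖f x - f a‖) (𝓝 a) (𝓝 ‖f a - f a‖) := (hf.sub continuousAt_const).norm
    rw [sub_self, norm_zero] at h5
    exact h5.eventually_lt_const one_pos
  filter_upwards [hg, h4] with x hx hx2
  rw [← hx, ← hga, ← Complex.exp_sub, Complex.log_exp]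
  · ring
  · have := (Complex.abs_im_le_norm (f x - f a))
    have h6 := (abs_le.1 (this.trans hx2.le)).1
    have := Real.pi_gt_three
    linarith
  · have := (Complex.abs_im_le_norm (f x - f a))
    have h6 := (abs_le.1 (this.trans hx2.le)).2
    have := Real.pi_gt_three
    linarith

theorem sp_ne {a u : ℝ} (ha : 0 < a) : sp a u ≠ 1 := by
  intro h
  have := congrArg Complex.re h
  rw [sp_re, one_re] at this
  linarith

theorem Phi_deriv {a : ℝ} (ha : 0 < a) (u : ℝ) :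
    HasDerivAt (fun a => Phi a u) (deriv riemannZeta (sp a u) / riemannZeta (sp a u)) a := by
  refine deriv_of_exp (g := fun a => riemannZeta (sp a u)) ?_ ?_ ?_
  · exact (Phi_cont (half_pos ha) u).continuousAt (Ici_mem_nhds (by linarith))
  · filter_upwards [lt_mem_nhds ha] with x hx using exp_Phi hx u
  · have h1 := (differentiableAt_riemannZeta (sp_ne (u := u) ha)).hasDerivAt
    have h2 : HasDerivAt (fun a : ℝ => sp a u) 1 a := by
      unfold sp
      exact (((hasDerivAt_id a).ofReal_comp).const_add 1).add_const _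
    have h3 := h1.comp a h2
    rw [mul_one] at h3
    exact h3

/-- the logarithmic derivative near the line `Re s = 1` -/
theorem ld_cpt (A : ℝ) : ∃ M : ℝ, 0 ≤ M ∧ ∀ a u : ℝ, 0 < a → a ≤ 1 → |u| ≤ A → u ≠ 0 →
    ‖deriv riemannZeta (sp a u) / riemannZeta (sp a u)‖ ≤ 1 / |u| + M := by
  obtain ⟨Kc, hKc⟩ : ∃ Kc : Set (ℝ × ℝ), Kc = Set.Icc 0 1 ×ˢ Set.Icc (-A) A := ⟨_, rfl⟩
  have hc : IsCompact Kc := by
    rw [hKc]
    exact isCompact_Icc.prod isCompact_Icc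
  have hdc : Continuous (deriv Z1) := (Z1_diff.contDiff (n := 1)).continuous_deriv le_rfl
  have hcont : ContinuousOn (fun z : ℝ × ℝ => deriv Z1 (sp z.1 z.2) / Z1 (sp z.1 z.2)) Kc := by
    have h0 : Continuous fun z : ℝ × ℝ => sp z.1 z.2 := by
      unfold sp
      fun_prop
    refine ContinuousOn.div (hdc.comp h0).continuousOn (Z1_cont.comp h0).continuousOn ?_
    intro z hz
    rw [hKc, Set.mem_prod] at hz
    exact Z1_ne (by rw [sp_re]; linarith [hz.1.1])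
  obtain ⟨C, hC⟩ := hc.exists_bound_of_continuousOn hcont
  refine ⟨max C 0, le_max_right _ _, ?_⟩
  intro a u h1 h2 h4 hu
  have h5 := hC (a, u) (by rw [hKc]; exact ⟨⟨h1.le, h2⟩, abs_le.1 h4⟩)
  change ‖deriv Z1 (sp a u) / Z1 (sp a u)‖ ≤ C at h5
  have hne := sp_ne (u := u) h1
  have hs1 : sp a u - 1 ≠ 0 := sub_ne_zero.2 hne
  have hz : riemannZeta (sp a u) ≠ 0 := by
    apply riemannZeta_ne_zero_of_one_le_re
    rw [sp_re]
    linarith
  have hd : deriv Z1 (sp a u) = riemannZeta (sp a u) + (sp a u - 1) * deriv riemannZeta (sp a u) := by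
    have e1 : Z1 =ᶠ[𝓝 (sp a u)] fun s => (s - 1) * riemannZeta s := by
      filter_upwards [isOpen_ne.mem_nhds hne] with w hw using Z1_of_ne hw
    rw [e1.deriv_eq]
    have e2 : HasDerivAt (fun s : ℂ => (s - 1) * riemannZeta s)
        (1 * riemannZeta (sp a u) + (sp a u - 1) * deriv riemannZeta (sp a u)) (sp a u) :=
      ((hasDerivAt_id (sp a u)).sub_const 1).mul (differentiableAt_riemannZeta hne).hasDerivAt
    rw [e2.deriv, one_mul]
  have h6 : deriv riemannZeta (sp a u) / riemannZeta (sp a u) = deriv Z1 (sp a u) / Z1 (sp a u) - 1 / (sp a u - 1) := by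
    rw [hd, Z1_of_ne hne]
    field_simp
    ring
  rw [h6]
  refine (norm_sub_le _ _).trans ?_
  have h7 : ‖1 / (sp a u - 1)‖ ≤ 1 / |u| := by
    rw [norm_div, norm_one]
    have h8 : |u| ≤ ‖sp a u - 1‖ := by
      have h9 := Complex.abs_im_le_norm (sp a u - 1)
      rw [sub_im, sp_im, one_im, sub_zero] at h9
      exact h9
    exact one_div_le_one_div_of_le (abs_pos.2 hu) h8
  have h8 := le_max_left C 0
  linarith

theorem Phi_diff {κ A : ℝ} (hκ : 0 < κ) : ∃ C : ℝ, 0 ≤ C ∧ ∀ a₁ a₂ u : ℝ, 0 < a₂ → a₂ ≤ a₁ → a₁ ≤ 1 → κ * a₁ ≤ |u| →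
    |u| ≤ A → ‖Phi a₁ u - Phi a₂ u‖ ≤ C := by
  obtain ⟨M, hM, h⟩ := ld_cpt A
  refine ⟨1 / κ + M, by positivity, ?_⟩
  intro a₁ a₂ u h0 h1 h2 h3 h4
  have hu0 : 0 < |u| := lt_of_lt_of_le (by have : 0 < a₁ := by linarith
                                           positivity) h3
  have hu : u ≠ 0 := abs_pos.1 hu0
  have h5 := Convex.norm_image_sub_le_of_norm_hasDerivWithin_le (f := fun a => Phi a u)
    (f' := fun a => deriv riemannZeta (sp a u) / riemannZeta (sp a u)) (s := Set.Icc a₂ a₁) (C := 1 / |u| + M)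
    (fun x hx => (Phi_deriv (by linarith [hx.1]) u).hasDerivWithinAt)
    (fun x hx => h x u (by linarith [hx.1]) (by linarith [hx.2]) h4 hu) (convex_Icc a₂ a₁)
    (Set.left_mem_Icc.2 h1) (Set.right_mem_Icc.2 h1)
  refine h5.trans ?_
  rw [Real.norm_eq_abs, abs_of_nonneg (show 0 ≤ a₁ - a₂ by linarith)]
  have h6 : (1 / |u| + M) * (a₁ - a₂) ≤ (1 / |u| + M) * a₁ :=
    mul_le_mul_of_nonneg_left (by linarith) (by positivity)
  have h7 : 1 / |u| * a₁ ≤ 1 / κ := by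
    rw [one_div, one_div, ← div_eq_inv_mul, div_le_iff₀ hu0, ← div_eq_inv_mul, le_div_iff₀ hκ]
    linarith
  have h8 : M * a₁ ≤ M := mul_le_of_le_one_right hM h2
  calc (1 / |u| + M) * (a₁ - a₂) ≤ 1 / |u| * a₁ + M * a₁ := by rw [← add_mul]; exact h6
    _ ≤ 1 / κ + M := add_le_add h7 h8

/-- a prime power with real and imaginary parts separated -/
theorem z_eq (a u : ℝ) {p : ℕ} (hp : 0 < p) :
    (p : ℂ) ^ (-(sp a u)) = ((Real.exp (-(a * Real.log p)) : ℝ) : ℂ) * ((p : ℂ) ^ (-(u * I)) / p) := by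
  have h0 : (p : ℂ) ≠ 0 := by exact_mod_cast hp.ne'
  have e : -(sp a u) = (-(a : ℂ)) + (-(u * I) + (-1)) := by
    unfold sp
    ring
  rw [e, Complex.cpow_add _ _ h0, Complex.cpow_add _ _ h0, Complex.cpow_neg_one, ← div_eq_mul_inv]
  congr 1
  rw [Complex.cpow_def_of_ne_zero h0, Complex.ofReal_exp]
  congr 1
  rw [← Complex.natCast_log]
  push_cast
  ring

theorem norm_q (u : ℝ) {p : ℕ} (hp : 0 < p) : ‖(p : ℂ) ^ (-(u * I)) / p‖ = 1 / p := by
  rw [norm_div, Complex.norm_natCast_cpow_of_pos hp, Complex.norm_natCast]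
  simp

/-- Mertens' theorem with `p ^ (-iu)` -/
theorem mz_c : ∃ C : ℝ, 0 ≤ C ∧ ∀ᶠ T : ℝ in atTop, ∀ u : ℝ,
    ‖(∑ p ∈ (Finset.Icc 1 ⌊T⌋₊).filter Nat.Prime, (p : ℂ) ^ (-(u * I)) / p) - Phi (1 / Real.log T) u‖ ≤ C := by
  obtain ⟨B, hB1, hB⟩ := Pool.Agent.Q178.UM.PR.main_sum
  have hsq : Summable (fun n : ℕ => 1 / (n : ℝ) ^ 2) := Real.summable_one_div_nat_pow.2 (by norm_num)
  refine ⟨1 / 1 * B + ∑' n : ℕ, 1 / (n : ℝ) ^ 2, add_nonneg (by linarith) (tsum_nonneg fun n => by positivity), ?_⟩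
  filter_upwards [eventually_gt_atTop (Real.exp 1)] with T hT u
  have hT0 : 0 < T := (Real.exp_pos 1).trans hT
  have hL : 1 < Real.log T := by
    rw [← Real.log_exp 1]
    exact Real.log_lt_log (Real.exp_pos 1) hT
  obtain ⟨L, hLdef⟩ : ∃ L, L = Real.log T := ⟨_, rfl⟩
  rw [← hLdef] at hL ⊢
  have hL0 : 0 < L := by linarith
  obtain ⟨a, ha⟩ : ∃ a, a = 1 / L := ⟨_, rfl⟩
  rw [← ha]
  have ha0 : 0 < a := by rw [ha]; positivity
  unfold Phi
  -- the finite sum as a sum over the primes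
  obtain ⟨F, hF⟩ : ∃ F : Nat.Primes → ℂ, F = fun p : Nat.Primes => if a * Real.log (p : ℕ) ≤ 1 then
    ((p : ℕ) : ℂ) ^ (-(u * I)) / ((p : ℕ) : ℂ) else 0 := ⟨_, rfl⟩
  have hmem : ∀ p : ℕ, p.Prime → (p ≤ ⌊T⌋₊ ↔ a * Real.log p ≤ 1) := by
    intro p hp
    have hp0 : (0 : ℝ) < p := by exact_mod_cast hp.pos
    rw [Nat.le_floor_iff (by positivity), ← Real.log_le_log_iff hp0 (by positivity), ← hLdef, ha, one_div,
      ← div_eq_inv_mul, div_le_iff₀ hL0, one_mul]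
  obtain ⟨S₀, hS₀⟩ : ∃ S₀ : Finset Nat.Primes, S₀ = (Finset.Icc 1 ⌊T⌋₊).subtype Nat.Prime := ⟨_, rfl⟩
  have hS : ∀ p : Nat.Primes, p ∈ S₀ ↔ a * Real.log (p : ℕ) ≤ 1 := by
    intro p
    rw [← hmem p p.2, hS₀]
    constructor
    · intro h
      exact (Finset.mem_Icc.1 (Finset.mem_subtype.1 h)).2
    · intro h
      exact Finset.mem_subtype.2 (Finset.mem_Icc.2 ⟨p.2.one_le, h⟩)
  have hF0 : ∀ p : Nat.Primes, p ∉ S₀ → F p = 0 := by
    intro p hp
    rw [hF]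
    exact if_neg fun h => hp ((hS p).2 h)
  have hFs : Summable F := summable_of_ne_finset_zero hF0
  have hfin : (∑ p ∈ (Finset.Icc 1 ⌊T⌋₊).filter Nat.Prime, (p : ℂ) ^ (-(u * I)) / p) = ∑' p : Nat.Primes, F p := by
    rw [tsum_eq_sum (f := F) (s := S₀) hF0, ← Finset.sum_subtype_eq_sum_filter, ← hS₀]
    apply Finset.sum_congr rfl
    intro p hp
    rw [hF]
    exact (if_pos ((hS p).1 hp)).symm
  rw [hfin, ← hFs.tsum_sub (Phi_summable ha0 u)]
  -- the bound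
  obtain ⟨h, hh⟩ : ∃ h : Nat.Primes → ℝ, h = fun p : Nat.Primes => 1 / 1 * (min (a * Real.log (p : ℕ))
    (1 / √(a * Real.log (p : ℕ))) / (p : ℕ)) + 1 / ((p : ℕ) : ℝ) ^ 2 := ⟨_, rfl⟩
  have hbound : ∀ p : Nat.Primes, ‖F p - -Complex.log (1 - ((p : ℕ) : ℂ) ^ (-(sp a u)))‖ ≤ h p := by
    intro p
    have hp0 : (0 : ℝ) < (p : ℕ) := by exact_mod_cast p.2.pos
    have hx : 0 < a * Real.log (p : ℕ) := mul_pos ha0 (Real.log_pos (by exact_mod_cast p.2.one_lt))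
    obtain ⟨z, hz⟩ : ∃ z, z = ((p : ℕ) : ℂ) ^ (-(sp a u)) := ⟨_, rfl⟩
    rw [← hz]
    have hn : ‖z‖ ≤ 1 / (p : ℕ) := by rw [hz]; exact z_small ha0.le p.2
    have hn2 : ‖z‖ ≤ 1 / 2 := by rw [hz]; exact z_half ha0.le p.2
    have e1 : ‖z - -Complex.log (1 - z)‖ ≤ 1 / ((p : ℕ) : ℝ) ^ 2 := by
      have h1 := Complex.norm_log_one_add_sub_self_le (z := -z) (by rw [norm_neg]; linarith)
      rw [norm_neg, ← sub_eq_add_neg] at h1
      have e : z - -Complex.log (1 - z) = Complex.log (1 - z) - -z := by ring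
      rw [e]
      refine h1.trans ?_
      have h5 : (1 - ‖z‖)⁻¹ ≤ 2 := by
        rw [inv_le_comm₀ (by linarith) (by norm_num)]
        linarith
      have h6 : ‖z‖ ^ 2 ≤ (1 / ((p : ℕ) : ℝ)) ^ 2 := pow_le_pow_left₀ (norm_nonneg _) hn 2
      have h7 : ‖z‖ ^ 2 * (1 - ‖z‖)⁻¹ ≤ ‖z‖ ^ 2 * 2 := mul_le_mul_of_nonneg_left h5 (by positivity)
      calc ‖z‖ ^ 2 * (1 - ‖z‖)⁻¹ / 2 ≤ ‖z‖ ^ 2 := by linarith
        _ ≤ (1 / ((p : ℕ) : ℝ)) ^ 2 := h6
        _ = 1 / ((p : ℕ) : ℝ) ^ 2 := by rw [div_pow, one_pow]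
    have e2 := weight 1 (a * Real.log (p : ℕ)) one_pos le_rfl hx
    have e4 : ‖F p - z‖ ≤ 1 / 1 * (min (a * Real.log (p : ℕ)) (1 / √(a * Real.log (p : ℕ))) / (p : ℕ)) := by
      have e5 : F p - z = (((if a * Real.log (p : ℕ) ≤ 1 then 1 else 0) - Real.exp (-(a * Real.log (p : ℕ))) : ℝ) : ℂ) *
          (((p : ℕ) : ℂ) ^ (-(u * I)) / ((p : ℕ) : ℂ)) := by
        rw [hF, hz, z_eq a u p.2.pos]
        simp only
        split_ifs <;> push_cast <;> ring
      rw [e5, norm_mul, norm_q u p.2.pos, Complex.norm_real, Real.norm_eq_abs]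
      calc |(if a * Real.log (p : ℕ) ≤ 1 then (1 : ℝ) else 0) - Real.exp (-(a * Real.log (p : ℕ)))| * (1 / ((p : ℕ) : ℝ)) ≤
          (1 / 1 * min (a * Real.log (p : ℕ)) (1 / √(a * Real.log (p : ℕ)))) * (1 / ((p : ℕ) : ℝ)) :=
            mul_le_mul_of_nonneg_right e2 (by positivity)
        _ = _ := by ring
    rw [hh]
    have e6 : F p - -Complex.log (1 - z) = (F p - z) + (z - -Complex.log (1 - z)) := by ring
    rw [e6]
    exact (norm_add_le _ _).trans (add_le_add e4 e1)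
  have hh0 : ∀ p, 0 ≤ h p := fun p => (norm_nonneg _).trans (hbound p)
  have hfinb : ∀ S : Finset Nat.Primes, ∑ p ∈ S, h p ≤ 1 / 1 * B + ∑' n : ℕ, 1 / (n : ℝ) ^ 2 := by
    intro S
    rw [hh]
    simp only
    rw [Finset.sum_add_distrib, ← Finset.mul_sum]
    have hinj : Set.InjOn (fun p : Nat.Primes => (p : ℕ)) S := fun x _ y _ hxy => Subtype.ext hxy
    have f1 : ∑ p ∈ S, (min (a * Real.log (p : ℕ)) (1 / √(a * Real.log (p : ℕ))) / (p : ℕ)) =
        ∑ p ∈ S.image (fun p : Nat.Primes => (p : ℕ)),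
          min (a * Real.log p) (1 / √(a * Real.log p)) / p := by
      rw [Finset.sum_image hinj]
    have f2 : ∑ p ∈ S, 1 / ((p : ℕ) : ℝ) ^ 2 =
        ∑ p ∈ S.image (fun p : Nat.Primes => (p : ℕ)), 1 / (p : ℝ) ^ 2 := by
      rw [Finset.sum_image hinj]
    rw [f1, f2]
    have f3 := hB a (S.image (fun p : Nat.Primes => (p : ℕ))) ha0 (by
      intro p hp
      obtain ⟨q, _, rfl⟩ := Finset.mem_image.1 hp
      exact q.2)
    have f4 := Summable.sum_le_tsum (S.image (fun p : Nat.Primes => (p : ℕ)))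
      (fun n _ => by positivity) hsq
    exact add_le_add (mul_le_mul_of_nonneg_left f3 (by positivity)) f4
  have hhs : Summable h := summable_of_sum_le hh0 hfinb
  have h1 := tsum_of_norm_bounded hhs.hasSum hbound
  exact h1.trans (hhs.tsum_le_of_sum_le hfinb)

theorem sum_split_c (f : ℕ → ℂ) {N M : ℕ} (h : N ≤ M) :
    ∑ p ∈ (Finset.Icc 1 M).filter Nat.Prime, f p = ∑ p ∈ (Finset.Icc 1 N).filter Nat.Prime, f p + ∑ p ∈ bigP N M, f p := by
  rw [← Finset.sum_union]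
  · congr 1
    ext p
    rw [Finset.mem_union, mem_bP, Finset.mem_filter, Finset.mem_filter, Finset.mem_Icc, Finset.mem_Icc]
    constructor
    · rintro ⟨⟨h1, h2⟩, h3⟩
      rcases Nat.lt_or_ge N p with h4 | h4
      · exact Or.inr ⟨h3, h4, h2⟩
      · exact Or.inl ⟨⟨h1, h4⟩, h3⟩
    · rintro (⟨⟨h1, h2⟩, h3⟩ | ⟨h1, h2, h3⟩)
      · exact ⟨⟨h1, h2.trans h⟩, h3⟩
      · exact ⟨⟨h1.one_lt.le, h3⟩, h1⟩
  · rw [Finset.disjoint_left]
    intro p hp hp2
    rw [Finset.mem_filter, Finset.mem_Icc] at hp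
    have := (mem_bP.1 hp2).2.1
    omega

/-- oscillating sums over the primes in an interval are bounded -/
theorem osc_c {κ A : ℝ} (hκ : 0 < κ) : ∃ C y₀ : ℝ, 0 ≤ C ∧ ∀ y Z : ℝ, y₀ ≤ y → y ≤ Z → ∀ u : ℝ, κ / Real.log y ≤ |u| →
    |u| ≤ A → ‖∑ p ∈ bigP ⌊y⌋₊ ⌊Z⌋₊, (p : ℂ) ^ (-(u * I)) / p‖ ≤ C := by
  obtain ⟨C₁, hC₁, h1⟩ := mz_c
  obtain ⟨C₂, hC₂, h2⟩ := Phi_diff (A := A) hκ
  obtain ⟨y₁, h1⟩ := eventually_atTop.1 h1
  refine ⟨2 * C₁ + C₂, max y₁ (Real.exp 1), by positivity, ?_⟩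
  intro y Z hy hZ u hu1 hu2
  have hy1 : y₁ ≤ y := (le_max_left _ _).trans hy
  have hye : Real.exp 1 ≤ y := (le_max_right _ _).trans hy
  have hy0 : 0 < y := (Real.exp_pos 1).trans_le hye
  have hL : ∀ w : ℝ, y ≤ w → 1 ≤ Real.log w := fun w hw => by
    rw [Real.le_log_iff_exp_le (by linarith)]
    exact hye.trans hw
  have hLy := hL y le_rfl
  have hLZ := hL Z hZ
  have k1 := h1 y hy1 u
  have k2 := h1 Z (hy1.trans hZ) u
  have k3 := h2 (1 / Real.log y) (1 / Real.log Z) u (by positivity)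
    (one_div_le_one_div_of_le (by linarith) (Real.log_le_log hy0 hZ)) (by rw [div_le_one (by linarith)]; exact hLy)
    (by rw [mul_one_div]; exact hu1) hu2
  have h3 := sum_split_c (fun p => (p : ℂ) ^ (-(u * I)) / p) (Nat.floor_mono hZ)
  have e : ∑ p ∈ bigP ⌊y⌋₊ ⌊Z⌋₊, (p : ℂ) ^ (-(u * I)) / p =
      ((∑ p ∈ (Finset.Icc 1 ⌊Z⌋₊).filter Nat.Prime, (p : ℂ) ^ (-(u * I)) / p) - Phi (1 / Real.log Z) u) -
      ((∑ p ∈ (Finset.Icc 1 ⌊y⌋₊).filter Nat.Prime, (p : ℂ) ^ (-(u * I)) / p) - Phi (1 / Real.log y) u) -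
      (Phi (1 / Real.log y) u - Phi (1 / Real.log Z) u) := by
    rw [h3]
    ring
  rw [e]
  have k4 := norm_sub_le (((∑ p ∈ (Finset.Icc 1 ⌊Z⌋₊).filter Nat.Prime, (p : ℂ) ^ (-(u * I)) / p) - Phi (1 / Real.log Z) u) -
      ((∑ p ∈ (Finset.Icc 1 ⌊y⌋₊).filter Nat.Prime, (p : ℂ) ^ (-(u * I)) / p) - Phi (1 / Real.log y) u))
      (Phi (1 / Real.log y) u - Phi (1 / Real.log Z) u)
  have k5 := norm_sub_le ((∑ p ∈ (Finset.Icc 1 ⌊Z⌋₊).filter Nat.Prime, (p : ℂ) ^ (-(u * I)) / p) - Phi (1 / Real.log Z) u)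
      ((∑ p ∈ (Finset.Icc 1 ⌊y⌋₊).filter Nat.Prime, (p : ℂ) ^ (-(u * I)) / p) - Phi (1 / Real.log y) u)
  linarith

end

end Run7.h311.OA
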