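import Pool.Agent.Run7.h311.OM.Core
import Pool.Agent.Run7.h311.OA.Osc

set_option autoImplicit false

/-! The resonator for several shifts with prescribed complex means. -/

namespace Run7.h311.OA

open Filter Topology MeasureTheory Complex
open Pool.Agent.Q97.UM Pool.Agent.Q14.UM Run7.h311.LW Run7.h311.OM

noncomputable section

/-- a diagonally dominant system -/
theorem solve_c {n : ℕ} (M : Matrix (Fin n) (Fin n) ℂ) {C V B : ℝ} (hC : 0 ≤ C) (hd : ∀ j, V ≤ ‖M j j‖)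
    (ho : ∀ j l, j ≠ l → ‖M j l‖ ≤ C) (hV : n * C + 1 ≤ V) (x : Fin n → ℂ) (hB : 0 ≤ B) (hx : ∀ j, ‖x j‖ ≤ B) :
    ∃ β : Fin n → ℂ, (∀ j, ∑ l, M j l * β l = x j) ∧ ∀ l, ‖β l‖ ≤ B := by
  have hsum : ∀ k : Fin n, ∀ b : ℝ, 0 ≤ b → ∀ β : Fin n → ℂ, (∀ l, ‖β l‖ ≤ b) →
      ∑ l ∈ Finset.univ.erase k, ‖M k l‖ * ‖β l‖ ≤ n * C * b := by
    intro k b hb β hβ
    calc ∑ l ∈ Finset.univ.erase k, ‖M k l‖ * ‖β l‖ ≤ ∑ _l ∈ Finset.univ.erase k, C * b := by
          refine Finset.sum_le_sum fun l hl => ?_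
          exact mul_le_mul (ho k l (Finset.ne_of_mem_erase hl).symm) (hβ l) (norm_nonneg _) hC
      _ = ((Finset.univ.erase k).card : ℝ) * (C * b) := by rw [Finset.sum_const, nsmul_eq_mul]
      _ ≤ n * (C * b) := by
          refine mul_le_mul_of_nonneg_right ?_ (by positivity)
          have : (Finset.univ.erase k).card ≤ n := by
            refine (Finset.card_le_card (Finset.erase_subset _ _)).trans ?_
            rw [Finset.card_univ, Fintype.card_fin]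
          exact_mod_cast this
      _ = _ := by ring
  have hdet : M.det ≠ 0 := by
    apply det_ne_zero_of_sum_row_lt_diag
    intro k
    have h1 := hsum k 1 zero_le_one (fun _ => 1) (fun _ => by simp)
    simp only [norm_one, mul_one] at h1
    have h3 := hd k
    linarith
  have hu : IsUnit M.det := isUnit_iff_ne_zero.2 hdet
  refine ⟨M⁻¹.mulVec x, ?_, ?_⟩
  · intro j
    have h1 : M.mulVec (M⁻¹.mulVec x) = x := by
      rw [Matrix.mulVec_mulVec, Matrix.mul_nonsing_inv M hu, Matrix.one_mulVec]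
    have h2 := congrFun h1 j
    exact h2
  · intro l
    obtain ⟨β, hβ⟩ : ∃ β, β = M⁻¹.mulVec x := ⟨_, rfl⟩
    have hs : ∀ j, ∑ l, M j l * β l = x j := by
      intro j
      have h1 : M.mulVec (M⁻¹.mulVec x) = x := by
        rw [Matrix.mulVec_mulVec, Matrix.mul_nonsing_inv M hu, Matrix.one_mulVec]
      have h2 := congrFun h1 j
      rw [← hβ] at h2
      exact h2
    rw [← hβ]
    obtain ⟨k, -, hk⟩ := Finset.exists_max_image Finset.univ (fun j => ‖β j‖) ⟨l, Finset.mem_univ l⟩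
    refine (hk l (Finset.mem_univ l)).trans ?_
    have h1 := hsum k ‖β k‖ (norm_nonneg _) β (fun j => hk j (Finset.mem_univ j))
    have h2 := hs k
    rw [← Finset.add_sum_erase Finset.univ _ (Finset.mem_univ k)] at h2
    have h3 : M k k * β k = x k - ∑ l ∈ Finset.univ.erase k, M k l * β l := by
      rw [← h2]
      ring
    have h4 : ‖M k k‖ * ‖β k‖ ≤ B + n * C * ‖β k‖ := by
      calc ‖M k k‖ * ‖β k‖ = ‖x k - ∑ l ∈ Finset.univ.erase k, M k l * β l‖ := by rw [← h3, norm_mul]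
        _ ≤ ‖x k‖ + ‖∑ l ∈ Finset.univ.erase k, M k l * β l‖ := norm_sub_le _ _
        _ ≤ B + n * C * ‖β k‖ := by
            refine add_le_add (hx k) ?_
            refine (norm_sum_le _ _).trans ?_
            refine le_trans (le_of_eq ?_) h1
            exact Finset.sum_congr rfl fun l _ => norm_mul _ _
    have h5 : (n * C + 1) * ‖β k‖ ≤ ‖M k k‖ * ‖β k‖ :=
      mul_le_mul_of_nonneg_right (hV.trans (hd k)) (norm_nonneg _)
    linarith

/-- complex combinations of shifted prime sums -/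
def apc {n : ℕ} (β : Fin n → ℂ) (α : Fin n → ℝ) (p : ℕ) : ℂ := ∑ l, β l * (p : ℂ) ^ (-(α l * I))

theorem apc_le {n : ℕ} (β : Fin n → ℂ) (α : Fin n → ℝ) {b : ℝ} (hb : 0 ≤ b) (h : ∀ l, ‖β l‖ ≤ b) (p : ℕ) :
    ‖apc β α p‖ ≤ n * b := by
  unfold apc
  refine (norm_sum_le _ _).trans ?_
  calc ∑ l, ‖β l * (p : ℂ) ^ (-(α l * I))‖ ≤ ∑ _l : Fin n, b := by
        refine Finset.sum_le_sum fun l _ => ?_
        rw [norm_mul, ← aj_eq]
        calc ‖β l‖ * ‖aj (α l) p‖ ≤ b * 1 := mul_le_mul (h l) (aj_le _ _) (norm_nonneg _) hb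
          _ = b := mul_one b
    _ = n * b := by rw [Finset.sum_const, Finset.card_univ, Fintype.card_fin, nsmul_eq_mul]

theorem conj_pw (b : ℝ) {p : ℕ} (hp : 0 < p) : (starRingEnd ℂ) ((p : ℂ) ^ (-(b * I))) = (p : ℂ) ^ (b * I) := by
  have h1 : (p : ℂ).arg ≠ Real.pi := by
    rw [Complex.natCast_arg]
    exact Real.pi_pos.ne
  have h2 := Complex.cpow_conj (p : ℂ) (-(b * I)) h1
  rw [Complex.conj_natCast] at h2
  rw [← h2]
  congr 1
  simp

theorem c_mul {n : ℕ} (β : Fin n → ℂ) (α : Fin n → ℝ) (a : ℝ) {p : ℕ} (hp : 0 < p) :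
    aj a p * (starRingEnd ℂ) (apc (fun l => (starRingEnd ℂ) (β l)) α p) / p =
      ∑ l, β l * ((p : ℂ) ^ (-(((a - α l : ℝ) : ℂ) * I)) / p) := by
  have h0 : (p : ℂ) ≠ 0 := by exact_mod_cast hp.ne'
  unfold apc
  rw [aj_eq, map_sum, Finset.mul_sum, Finset.sum_div]
  refine Finset.sum_congr rfl fun l _ => ?_
  rw [map_mul, Complex.conj_conj, conj_pw _ hp]
  have e : -(((a - α l : ℝ) : ℂ) * I) = -(a * I) + α l * I := by
    push_cast
    ring
  rw [e, Complex.cpow_add _ _ h0]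
  ring

open Classical in
/-- the resonator with prescribed means -/
theorem core_c (n : ℕ) {κ A θ : ℝ} (hκ : 0 < κ) (hθ : 0 < θ) : ∃ (c C : ℝ) (K' : ℕ), 0 < c ∧ 0 ≤ C ∧ 1 ≤ K' ∧
    ∀ᶠ T : ℝ in atTop, ∀ (α : Fin n → ℝ) (x : Fin n → ℂ),
      (∀ i j, i ≠ j → κ / Real.log (Real.log T) ≤ |α i - α j| ∧ |α i - α j| ≤ A) →
      (∀ j, ‖x j‖ ≤ c * Real.sqrt (Real.log T / Real.log (Real.log T))) →
      ∃ (M : ℕ) (r : ℕ → ℂ), (M : ℝ) ≤ T ^ θ ∧ (∀ m, M < m → r m = 0) ∧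
        SP (fun p => p ∈ bigP ⌊Real.log T ^ 2⌋₊ ⌊(Real.log T ^ 2) ^ K'⌋₊) r ∧ 1 ≤ N2 M r ∧
        ∀ j, ∃ e : ℕ → ℂ, (∀ m, M < m → e m = 0) ∧
          SP (fun p => p ∈ bigP ⌊Real.log T ^ 2⌋₊ ⌊(Real.log T ^ 2) ^ K'⌋₊) e ∧
          (∀ t : ℝ, dp M e t = (dp ⌊(Real.log T ^ 2) ^ K'⌋₊
            (sS (bigP ⌊Real.log T ^ 2⌋₊ ⌊(Real.log T ^ 2) ^ K'⌋₊) (aj (α j))) t - x j) * dp M r t) ∧
          N2 M e ≤ C * N2 M r := by
  have hD := Pool.Agent.Q84.UM.t_DPM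
  obtain ⟨C₁, y₁, hC₁, hosc⟩ := osc_c (A := A) hκ
  obtain ⟨C₂, y₂, hC₂, hmer⟩ := mer
  obtain ⟨K', hK'⟩ := exists_nat_ge (Real.exp (n * C₁ + 1 + C₂))
  have hK'1 : (1 : ℝ) ≤ K' := by
    refine le_trans ?_ hK'
    rw [← Real.exp_zero]
    exact Real.exp_le_exp.2 (by positivity)
  have hK'n : 1 ≤ K' := by exact_mod_cast hK'1
  have hK'0 : (0 : ℝ) < K' := by linarith
  obtain ⟨V₁, hV₁⟩ : ∃ V₁, V₁ = Real.log K' + C₂ := ⟨_, rfl⟩
  have hlK : n * C₁ + 1 + C₂ ≤ Real.log K' := by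
    rw [Real.le_log_iff_exp_le hK'0]
    exact hK'
  have hnC : 0 ≤ n * C₁ := by positivity
  have hV₁0 : 0 < V₁ := by rw [hV₁]; linarith
  obtain ⟨W, hW⟩ : ∃ W : ℝ, W = 64 * K' * (n + 1) ^ 2 * V₁ := ⟨_, rfl⟩
  have hW0 : 0 < W := by rw [hW]; positivity
  obtain ⟨c, hc⟩ : ∃ c, c = Real.sqrt (θ / W) := ⟨_, rfl⟩
  have hc0 : 0 < c := by rw [hc]; exact Real.sqrt_pos.2 (by positivity)
  have hc2 : c ^ 2 = θ / W := by rw [hc, Real.sq_sqrt (by positivity)]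
  refine ⟨c, 3 * V₁, K', hc0, by positivity, hK'n, ?_⟩
  have tL : Tendsto Real.log atTop atTop := Real.tendsto_log_atTop
  have tLL : Tendsto (fun T => Real.log (Real.log T)) atTop atTop := tL.comp tL
  have tL2 : Tendsto (fun T : ℝ => Real.log T ^ 2) atTop atTop := (tendsto_pow_atTop (by norm_num)).comp tL
  have hlit : ∀ᶠ L : ℝ in atTop, 4 * K' * Real.log L ≤ θ / 2 * L := by
    have h2 := (Real.isLittleO_log_id_atTop).bound (show (0 : ℝ) < θ / (8 * K') by positivity)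
    filter_upwards [h2, eventually_ge_atTop (1 : ℝ)] with L h hL
    rw [Real.norm_eq_abs, Real.norm_eq_abs, abs_of_nonneg (Real.log_nonneg hL), id, abs_of_nonneg (by linarith)] at h
    calc 4 * K' * Real.log L ≤ 4 * K' * (θ / (8 * K') * L) := mul_le_mul_of_nonneg_left h (by positivity)
      _ = θ / 2 * L := by field_simp; norm_num
  filter_upwards [tL2.eventually_ge_atTop y₁, tL2.eventually_ge_atTop y₂, tL.eventually_ge_atTop 3,
    tLL.eventually_ge_atTop 1, tL.eventually hlit, tL.eventually_ge_atTop (8 * (n + 1) ^ 2 * c ^ 2),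
    eventually_gt_atTop (1 : ℝ)] with T hy₁ hy₂ hL3 hLL1 hlit hLbig hT1 α x hα hx
  have hT0 : 0 < T := by linarith
  obtain ⟨L, hLd⟩ : ∃ L, L = Real.log T := ⟨_, rfl⟩
  obtain ⟨l, hld⟩ : ∃ l, l = Real.log L := ⟨_, rfl⟩
  rw [← hLd] at hy₁ hy₂ hL3 hLL1 hlit hLbig hx hα ⊢
  rw [← hld] at hLL1 hlit hx hα
  have hL0 : 0 < L := by linarith
  obtain ⟨y, hy⟩ : ∃ y, y = L ^ 2 := ⟨_, rfl⟩
  obtain ⟨Z, hZ⟩ : ∃ Z, Z = y ^ K' := ⟨_, rfl⟩
  rw [← hy] at hy₁ hy₂ ⊢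
  rw [← hZ]
  have hyg : 1 < y := by rw [hy]; nlinarith
  have hyZ : y ≤ Z := by
    rw [hZ]
    exact le_self_pow₀ hyg.le (by omega)
  have hlogy : Real.log y = 2 * l := by
    rw [hy, Real.log_pow, hld]
    norm_num
  have hlogZ : Real.log Z = K' * (2 * l) := by
    rw [hZ, Real.log_pow, hlogy]
  obtain ⟨Q, hQ⟩ : ∃ Q, Q = bigP ⌊y⌋₊ ⌊Z⌋₊ := ⟨_, rfl⟩
  rw [← hQ]
  have hQp : ∀ p ∈ Q, p.Prime := fun p hp => by rw [hQ] at hp; exact (mem_bP.1 hp).1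
  have hQZ : ∀ p ∈ Q, p ≤ ⌊Z⌋₊ := fun p hp => by rw [hQ] at hp; exact (mem_bP.1 hp).2.2
  have hQy : ∀ p ∈ Q, y < p := fun p hp => by
    rw [hQ] at hp
    exact (Nat.floor_lt (by linarith)).1 (mem_bP.1 hp).2.1
  have hZ1 : 1 ≤ ⌊Z⌋₊ := Nat.le_floor (by push_cast; linarith)
  -- the mass of Q
  have hmass := hmer y Z hy₂ hyZ
  rw [← hQ, hlogZ, hlogy, Real.log_mul hK'0.ne' (by linarith)] at hmass
  have hm := abs_le.1 hmass
  have hVlow : n * C₁ + 1 ≤ ∑ p ∈ Q, (1 : ℝ) / p := by linarith [hm.1]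
  have hVup : ∑ p ∈ Q, (1 : ℝ) / p ≤ V₁ := by rw [hV₁]; linarith [hm.2]
  -- the system
  obtain ⟨B, hB⟩ : ∃ B, B = c * Real.sqrt (L / l) := ⟨_, rfl⟩
  rw [← hB] at hx
  have hB0 : 0 ≤ B := by rw [hB]; positivity
  have hl0 : 0 < l := by linarith
  have hB2 : B ^ 2 = c ^ 2 * (L / l) := by rw [hB, mul_pow, Real.sq_sqrt (by positivity)]
  obtain ⟨β, hβ1, hβ2⟩ := solve_c (fun j l' : Fin n => ∑ p ∈ Q, (p : ℂ) ^ (-(((α j - α l' : ℝ) : ℂ) * I)) / p) hC₁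
    (V := ∑ p ∈ Q, (1 : ℝ) / p)
    (fun j => by
      have e1 : (∑ p ∈ Q, (p : ℂ) ^ (-(((α j - α j : ℝ) : ℂ) * I)) / p) = ((∑ p ∈ Q, (1 : ℝ) / p : ℝ) : ℂ) := by
        push_cast
        refine Finset.sum_congr rfl fun p _ => ?_
        simp
      rw [e1, Complex.norm_real]
      exact le_abs_self _) (fun j l' hjl => by
      rw [hQ]
      refine hosc y Z hy₁ hyZ _ (le_trans ?_ (hα j l' hjl).1) (hα j l' hjl).2
      rw [hlogy]
      exact div_le_div_of_nonneg_left hκ.le (by linarith) (by linarith)) hVlow x hB0 hx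
  obtain ⟨g, hg⟩ : ∃ g, g = apc (fun l => (starRingEnd ℂ) (β l)) α := ⟨_, rfl⟩
  have hgB : ∀ p, ‖g p‖ ≤ n * B := by
    intro p
    rw [hg]
    exact apc_le _ α hB0 (fun l => by rw [RCLike.norm_conj]; exact hβ2 l) p
  have hgu : ∀ p ∈ Q, ‖g p‖ ^ 2 / (p : ℝ) ≤ (n * B) ^ 2 * (1 / p) := by
    intro p _
    rw [mul_one_div]
    have := pow_le_pow_left₀ (norm_nonneg _) (hgB p) 2
    gcongr
  obtain ⟨idx, hi1, hi2⟩ := blocks Q (fun p => ‖g p‖ ^ 2 / (p : ℝ)) (h := 1 / 4) (by norm_num) (fun p => by positivity)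
    (fun p hp => by
      refine (hgu p hp).trans ?_
      have hp1 : y < p := hQy p hp
      have hp0 : (0 : ℝ) < p := by linarith
      rw [mul_one_div, div_le_iff₀ hp0, mul_pow, hB2]
      have h1 : (n : ℝ) ^ 2 * (c ^ 2 * (L / l)) ≤ (n + 1) ^ 2 * (c ^ 2 * L) := by
        have h2 : L / l ≤ L := div_le_self hL0.le hLL1
        have h3 : (n : ℝ) ^ 2 ≤ (n + 1) ^ 2 := by
          have : (0 : ℝ) ≤ n := Nat.cast_nonneg n
          nlinarith
        gcongr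
      have h2 : (n + 1) ^ 2 * (c ^ 2 * L) ≤ 1 / 8 * y := by
        rw [hy]
        have : 8 * (n + 1) ^ 2 * c ^ 2 * L ≤ L * L := mul_le_mul_of_nonneg_right hLbig hL0.le
        nlinarith
      linarith)
  obtain ⟨K, hK⟩ : ∃ K : ℕ, K = ⌊8 * ((n * B) ^ 2 * V₁)⌋₊ + 1 := ⟨_, rfl⟩
  have hsumu : ∑ p ∈ Q, ‖g p‖ ^ 2 / (p : ℝ) ≤ (n * B) ^ 2 * V₁ := by
    refine (Finset.sum_le_sum hgu).trans ?_
    rw [← Finset.mul_sum]
    exact mul_le_mul_of_nonneg_left hVup (by positivity)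
  have hidx : ∀ p ∈ Q, idx p < K := by
    intro p hp
    have h1 := hi1 p hp
    have h2 : (idx p : ℝ) ≤ 8 * ((n * B) ^ 2 * V₁) := by
      have h3 : 2 / (1 / 4 : ℝ) * ∑ p ∈ Q, ‖g p‖ ^ 2 / (p : ℝ) ≤ 8 * ((n * B) ^ 2 * V₁) := by
        have h4 : 2 / (1 / 4 : ℝ) = 8 := by norm_num
        rw [h4]
        linarith
      exact h1.trans h3
    rw [hK]
    exact Nat.lt_succ_of_le (Nat.le_floor h2)
  obtain ⟨r, hr1, hr2, hr3, hr4⟩ := chain hD hQp hZ1 hQZ g idx hidx hi2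
  refine ⟨(⌊Z⌋₊ ^ 2) ^ K, r, ?_, hr1, hr2, hr3, ?_⟩
  · -- the length
    have hKle : (K : ℝ) ≤ 8 * ((n * B) ^ 2 * V₁) + 1 := by
      rw [hK]
      push_cast
      have := Nat.floor_le (show 0 ≤ 8 * ((n * B) ^ 2 * V₁) by positivity)
      linarith
    have hZf : (⌊Z⌋₊ : ℝ) ≤ Z := Nat.floor_le (by linarith)
    have hZpos : 0 < Z := by linarith
    push_cast
    calc (((⌊Z⌋₊ : ℝ)) ^ 2) ^ K ≤ (Z ^ 2) ^ K := by gcongr
      _ = Real.exp (K * (2 * Real.log Z)) := by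
          rw [Real.exp_nat_mul, show (2 : ℝ) * Real.log Z = ((2 : ℕ) : ℝ) * Real.log Z by norm_num, Real.exp_nat_mul,
            Real.exp_log hZpos]
      _ ≤ Real.exp (θ * L) := by
          apply Real.exp_le_exp.2
          rw [hlogZ]
          have h1 : (K : ℝ) * (2 * (K' * (2 * l))) ≤ (8 * ((n * B) ^ 2 * V₁) + 1) * (2 * (K' * (2 * l))) :=
            mul_le_mul_of_nonneg_right hKle (by positivity)
          refine h1.trans ?_
          have h2 : (8 * ((n * B) ^ 2 * V₁) + 1) * (2 * (K' * (2 * l))) =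
              32 * K' * n ^ 2 * V₁ * (B ^ 2 * l) + 4 * K' * l := by ring
          have h3 : B ^ 2 * l = c ^ 2 * L := by
            rw [hB2]
            field_simp
          rw [h2, h3, hc2]
          have h4 : 32 * K' * (n : ℝ) ^ 2 * V₁ * (θ / W * L) ≤ θ / 2 * L := by
            have h5 : 32 * K' * (n : ℝ) ^ 2 * V₁ ≤ W / 2 := by
              rw [hW]
              have h6 : (n : ℝ) ^ 2 ≤ (n + 1) ^ 2 := by
                have : (0 : ℝ) ≤ n := Nat.cast_nonneg n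
                nlinarith
              have h7 : 32 * K' * (n : ℝ) ^ 2 * V₁ ≤ 32 * K' * (n + 1 : ℝ) ^ 2 * V₁ := by gcongr
              linarith
            calc 32 * K' * (n : ℝ) ^ 2 * V₁ * (θ / W * L) ≤ W / 2 * (θ / W * L) :=
                  mul_le_mul_of_nonneg_right h5 (by positivity)
              _ = θ / 2 * L := by field_simp
          linarith
      _ = T ^ θ := by rw [Real.rpow_def_of_pos hT0, ← hLd, mul_comm]
  · intro j
    obtain ⟨e, he1, he2, he3, he4⟩ := hr4 (aj (α j)) (aj_le (α j))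
    have hmb : mb Q (aj (α j)) g = x j := by
      rw [← hβ1 j]
      unfold mb
      rw [hg]
      have h1 : ∀ p ∈ Q, aj (α j) p * (starRingEnd ℂ) (apc (fun l => (starRingEnd ℂ) (β l)) α p) / p =
          ∑ l, β l * ((p : ℂ) ^ (-(((α j - α l : ℝ) : ℂ) * I)) / p) := fun p hp => c_mul β α (α j) (hQp p hp).pos
      rw [Finset.sum_congr rfl h1, Finset.sum_comm]
      refine Finset.sum_congr rfl fun l' _ => ?_
      rw [← Finset.mul_sum, mul_comm]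
    rw [hmb] at he3
    refine ⟨e, he1, he2, he3, ?_⟩
    refine he4.trans ?_
    refine mul_le_mul_of_nonneg_right ?_ (N2_nn _ _)
    linarith

end

end Run7.h311.OA
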